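import Pool.Agent.U955.TD.Fin
import Pool.Agent.U397.TD.RT
import Pool.Agent.U682.TD.T_OP

/-!
# MP_34deb4_co, Q2: the tadpoles which are SSP graphs

For `m ≥ 3` and `n ≥ 1` the tadpole `T_{m,n}` (a cycle of length `m` with a path on `n` vertices
attached by a bridge) is an SSP graph if and only if `m ≤ 2 n + 3`. This answers Q2: the pairs
`(m, n)` with `m ≥ 6` and `T_{m,n}` in the family are those with `6 ≤ m ≤ 2 n + 3`.

The part `m ≤ 2 n + 3` is the starting result `LongTails`. New: for all `m ≥ 2 n + 4` there is a
matrix of `T_{m,n}` without the SSP.

Idea of the proof for `m ≥ 2 n + 5`. Let `A` be a matrix of `T_{m,n}` and `A'` the matrix with the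
opposite sign at one edge of the cycle. If `A'` has `n + 2` eigenvalues `d_0, …, d_{n+1}` of
multiplicity two, then a linear combination `X` of the resolvents `(d_j - A)⁻¹` vanishes on the
diagonal and on the edges, and `X ≠ 0`: the entries of `(d_j - A)⁻¹` are `0` on the diagonal and
`- 1 / (2 w)` at the edges of the cycle with weight `w`, and the block of the path is the resolvent of
the matrix of the path, so that `n + 1` linear conditions on `n + 2` coefficients remain. To find such
a matrix take loops `1` at the neighbours `c_1, c_{-1}` of the vertex `c_0` of degree three on the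
cycle, weights `√3` at the edges `c_1 c_2`, `c_{-1} c_{-2}`, weights `1` and loops `0` on the rest of
the cycle. The possible `d = 2 cos (2 ψ)` are given by `cos ((m - 1) ψ) = 2 cos ((m - 3) ψ)`, there is
one of them above `5 / 2` and at least `n + 1` below `2`. The matrix of the path and of `c_0` is the
Jacobi matrix of the orthogonal polynomials of a measure with atoms at `n + 2` of these points and
mean `5 / 2`. The matrix `X` is written down explicitly, with Chebyshev polynomials and the
orthogonal polynomials, and it is verified that it commutes with `A`.

The definitions `InS`, `HasSSP`, `IsSSPGraph`, `tadpole` are those of the starting file `LongTails`.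
-/

set_option autoImplicit false

namespace Pool.Agent.Results.MP_34deb4_co.AllTadpoles

open Pool.Agent.Results.MP_34deb4_co.LongTails

/-- **Q2.** Let `m ≥ 3` and `n ≥ 1`. All matrices of the tadpole `T_{m,n}` have the strong spectral
property if and only if `m ≤ 2 n + 3`. -/
theorem result : ∀ m n : ℕ, 3 ≤ m → 1 ≤ n → (IsSSPGraph (tadpole m n) ↔ m ≤ 2 * n + 3) :=
  fun m n hm hn => Pool.Agent.U955.TD.fin Pool.Agent.U397.TD.t_RT Pool.Agent.U682.TD.t_OP m n hm hn

end Pool.Agent.Results.MP_34deb4_co.AllTadpoles
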